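import Pool.Agent.R474.CE.ANT
import Pool.Agent.R474.CE.COD
import Pool.Agent.R474.CE.COR
import Pool.Agent.R474.CE.CUT
import Pool.Agent.R474.CE.CW
import Pool.Agent.R474.CE.FIN
import Pool.Agent.R474.CE.GEN
import Pool.Agent.R474.CE.GLUE
import Pool.Agent.R474.CE.JEP
import Pool.Agent.R474.CE.LOC
import Pool.Agent.R474.CE.NEC
import Pool.Agent.R474.CE.PA1
import Pool.Agent.R474.CE.PAV
import Pool.Agent.R474.CE.PBD
import Pool.Agent.R474.CE.PBIT
import Pool.Agent.R474.CE.PEMB
import Pool.Agent.R474.CE.PER
import Pool.Agent.R474.CE.PW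
import Pool.Agent.R474.CE.RES
import Pool.Agent.R474.CE.SC
import Pool.Agent.R474.CEA.PA2
import Pool.Agent.R474.CEA.PWIN
import Pool.Agent.R474.CEA.CA
import Pool.Agent.R474.CEA.SUF
import Pool.Agent.R474.CEA.Asm
import Pool.Agent.R474.CEB.QRES
import Pool.Agent.R474.CEB.QLOC
import Pool.Agent.R474.CEB.QGLUE
import Pool.Agent.R474.CEB.QPUMP
import Pool.Agent.R474.CEB.QLEMA
import Pool.Agent.R474.CEB.QUNI
import Pool.Agent.R474.CEB.QLEMB
import Pool.Agent.R474.CEB.QDET
import Pool.Agent.R474.CEB.QSTR
import Pool.Agent.R474.CEB.QMKP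
import Pool.Agent.R474.CEB.QMKN
import Pool.Agent.R474.CEB.QWSUF
import Pool.Agent.R474.CEB.QCUT
import Pool.Agent.R474.CEB.QJS
import Pool.Agent.R474.CEB.QNF
import Pool.Agent.R474.CEB.QCN
import Pool.Agent.R474.CEB.QBI
import Pool.Agent.R474.CEB.QCOR
import Pool.Agent.R474.CEB.QPAV
import Pool.Agent.R474.CEB.QPFR
import Pool.Agent.R474.CEB.QPMK
import Pool.Agent.R474.CEB.QPJS
import Pool.Agent.R474.CEB.QPCN
import Pool.Agent.R474.CEB.QPW
import Pool.Agent.R474.CEB.QPA
import Pool.Agent.R474.CEB.AsmQ

/-!
# Atomicity and wqo are decidable for digraphs, tournaments and posets under consecutive embeddings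

Contributors: helper474 (proofs on paper, statements, assembly); pieces by helper12, helper26,
helper28, helper30, helper46, helper62, helper64, helper77, helper86, helper103, helper141,
helper160, helper165, helper180, helper186, helper269, helper300, helper318, helper348, helper354,
helper395, helper398, helper437, helper440, helper456, helper466, helper534, helper538, helper560,
helper571, helper576, helper579, helper587, helper615, helper628, helper634, helper650, helper661,
helper682, helper711, helper787, helper788, helper805, helper824, helper827, helper850, helper861,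
helper884, helper900, helper950, helper963, helper964, helper973, helper986.
-/

set_option autoImplicit false

namespace Pool.Agent.Results.MP_7b05dd_co.ConsecutiveEmbeddings

open Pool.Agent.R474.CE

theorem ab :
    ComputablePred (fun B : Inp => WQO (Av Dig (bas B))) ∧
    ComputablePred (fun B : Inp => Atomic (Av Dig (bas B))) ∧
    ComputablePred (fun B : Inp => WQO (Av Tour (bas B))) ∧
    ComputablePred (fun B : Inp => Atomic (Av Tour (bas B))) := by
  have hPWIN := PWIN PBIT
  have hPAV := PAV PBIT
  have hPEMB := PEMB PBIT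
  have hGLUE := GLUE LOC
  have hCUT := CUT PER RES hGLUE
  exact Asm.main PER (GEN LOC) ANT FIN RES PBD (PW PBD hPAV) (CW COD COR RES) JEP
    (NEC RES hCUT (SC RES LOC)) (SUF RES hGLUE) (PA1 PBD hPAV hPEMB) (PA2 PBD hPAV hPWIN)
    (CA COD COR RES)

theorem c :
    ComputablePred (fun B : Inp => WQO (Av Pos (bas B))) ∧
    ComputablePred (fun B : Inp => Atomic (Av Pos (bas B))) := by
  have hG := QGLUE QLOC
  have hA := QPAV PBIT
  have hW := PWIN PBIT
  have hU := QUNI QRES hG
  have hC := QCUT QRES hG PER
  have hFR := QPFR hA PBIT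
  have hLA := QLEMA QRES hG
  exact AsmQ.main PBD (QCOR COD COR QRES) (QPUMP QRES hG QLOC) (QMKP PER QRES hG) QMKN
    (Pool.Agent.R964.CE.QLEMB hLA hU) (QWSUF QSTR QDET QRES hG) (QCN QRES hG)
    (QBI QRES hG hC QDET) (QJS QRES hG hC) (QNF QRES hG hC hU) JEP QRES
    (QPW hFR (QPMK hA hW) PBD) (QPA hFR (QPJS hA (PEMB PBIT) PBD) (QPCN PBD hA hW) PBD)

/-- For digraphs, tournaments and partial orders with an additional linear order, ordered by
consecutive embeddings, both the wqo problem and the atomicity problem (input: a finite list `B`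
of explicitly given structures; question: is `Av(B)` wqo, is `Av(B)` atomic) are decidable. -/
theorem result :
    (ComputablePred (fun B : Inp => WQO (Av Dig (bas B))) ∧
      ComputablePred (fun B : Inp => Atomic (Av Dig (bas B)))) ∧
    (ComputablePred (fun B : Inp => WQO (Av Tour (bas B))) ∧
      ComputablePred (fun B : Inp => Atomic (Av Tour (bas B)))) ∧
    (ComputablePred (fun B : Inp => WQO (Av Pos (bas B))) ∧
      ComputablePred (fun B : Inp => Atomic (Av Pos (bas B)))) :=
  ⟨⟨ab.1, ab.2.1⟩, ⟨ab.2.2.1, ab.2.2.2⟩, c⟩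

end Pool.Agent.Results.MP_7b05dd_co.ConsecutiveEmbeddings
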